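import Pool.Agent.W206.YP.Stm
import Pool.Agent.W349.YP.SURJ

/-!
# YP-PN: modular polynomials over the algebraic numbers
-/

set_option autoImplicit false

namespace Pool.Agent.W253.YP.PN

open UpperHalfPlane H294ZP Pool.Agent.W206.YP

open Polynomial in
theorem exists_family (N : ℕ) (hN : 0 < N) : ∃ (n : ℕ) (Q : ℕ → Polynomial Qb),
    ∀ τ : ℍ, ∃ F : Polynomial ℂ, F.Monic ∧ F.natDegree ≤ n ∧
      (∀ j, Polynomial.aeval (jj τ) (Q j) = F.coeff j) ∧
      ∀ x : ℂ, F.eval x = 0 ↔ ∃ (w : ℍ) (a b c d : ℤ), a * d - b * c = (N : ℤ) ∧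
        (w : ℂ) * ((c : ℂ) * (τ : ℂ) + (d : ℂ)) = (a : ℂ) * (τ : ℂ) + (b : ℂ) ∧ x = jj w := by
  classical
  have hA : TA := ⟨ta1.1, ta1.2, ta2⟩
  have hC : TC := tc
  have hB : TB := TBproof.tb hA hC
  have hF : TF := TF676.tf ta1.1
  obtain ⟨ι, _, _, α, δ, β, h, h1, h2, h3, h4⟩ := hF N hN
  have hG : ∀ k, TDaux.Lx N (fun τ => jj (h k τ)) := by
    intro k
    obtain ⟨ha, hd, had⟩ := h1 k
    have := hC.2.2.2.2 hA.2.1 hA.2.2 (α k) (δ k) (β k) ha hd (h k) (h2 k)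
    rw [had] at this
    exact ⟨⟨_, _, this.1⟩, this.2⟩
  have hco := TDaux.coeff_prod hC hN (fun k τ => jj (h k τ)) hG Finset.univ
  have hinv : ∀ j, Inv (fun τ => (∏ k, (X - C (jj (h k τ)))).coeff j) := by
    intro j p q r s hps τ w hw
    obtain ⟨σ, hσ⟩ := h3 p q r s hps τ w hw
    have : (∏ k, (X - C (jj (h k w)))) = ∏ k, (X - C (jj (h k τ))) := by
      rw [← Equiv.prod_comp σ (fun k => (X - C (jj (h k τ))))]
      exact Finset.prod_congr rfl fun k _ => by rw [hσ k]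
    show (∏ k, (X - C (jj (h k w)))).coeff j = (∏ k, (X - C (jj (h k τ)))).coeff j
    rw [this]
  have hP : ∀ j, ∃ Q : Polynomial Qb, ∀ τ : ℍ,
      Polynomial.aeval (jj τ) Q = (∏ k, (X - C (jj (h k τ)))).coeff j := by
    intro j
    obtain ⟨⟨m, A, hL⟩, hH⟩ := hco j
    obtain ⟨P, hP1, hP2, -⟩ := hB N hN m A _ (hinv j) hH hL
    have hlift : P ∈ lifts (algebraMap Qb ℂ) := by
      rw [lifts_iff_coeff_lifts]
      intro k
      refine ⟨⟨P.coeff k, ?_⟩, rfl⟩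
      rw [mem_algebraicClosure_iff]
      exact ((hP1 k).tower_top (A := ℚ)).isAlgebraic
    obtain ⟨Q, hQ⟩ := hlift
    refine ⟨Q, fun τ => ?_⟩
    have hQ' : Q.map (algebraMap Qb ℂ) = P := hQ
    rw [Polynomial.aeval_def, Polynomial.eval₂_eq_eval_map, hQ']
    exact (hP2 τ).symm
  choose Q hQ using hP
  refine ⟨Fintype.card ι, Q, fun τ => ⟨∏ k, (X - C (jj (h k τ))),
    monic_prod_of_monic _ _ fun k _ => monic_X_sub_C _, ?_, fun j => hQ j τ, ?_⟩⟩
  · rw [natDegree_finsetProd_X_sub_C_eq_card]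
    exact le_of_eq Finset.card_univ
  · intro x
    rw [eval_prod, Finset.prod_eq_zero_iff]
    constructor
    · rintro ⟨k, -, hk⟩
      rw [eval_sub, eval_X, eval_C, sub_eq_zero] at hk
      refine ⟨h k τ, α k, β k, 0, δ k, ?_, ?_, hk⟩
      · rw [mul_zero, sub_zero]
        have := (h1 k).2.2
        exact_mod_cast this
      · have := h2 k τ
        push_cast
        rw [zero_mul, zero_add]
        exact this
    · rintro ⟨w, a, b, c, d, hdet, hw, hx⟩
      obtain ⟨k, hk⟩ := h4 a b c d hdet τ w hw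
      refine ⟨k, Finset.mem_univ _, ?_⟩
      rw [eval_sub, eval_X, eval_C, hx, hk, sub_self]

theorem main_of (hS : S_SURJ) : S_PN := by
  intro N hN
  obtain ⟨n, Q, hQ⟩ := exists_family N hN
  set Φ : MvPolynomial (Fin 2) Qb := ∑ j ∈ Finset.range (n + 1),
    Polynomial.aeval (MvPolynomial.X 1 : MvPolynomial (Fin 2) Qb) (Q j) *
      (MvPolynomial.X 0) ^ j with hΦ
  have hev : ∀ (x : ℂ) (τ : ℍ) (F : Polynomial ℂ), F.natDegree ≤ n →
      (∀ j, Polynomial.aeval (jj τ) (Q j) = F.coeff j) →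
      MvPolynomial.aeval ![x, jj τ] Φ = F.eval x := by
    intro x τ F hd hc
    rw [hΦ, map_sum, Polynomial.eval_eq_sum_range' (Nat.lt_succ_of_le hd)]
    refine Finset.sum_congr rfl fun j _ => ?_
    rw [map_mul, map_pow, MvPolynomial.aeval_X, ← hc j]
    congr 1
    rw [← Polynomial.aeval_algHom_apply, MvPolynomial.aeval_X]
    rfl
  refine ⟨Φ, ?_, ?_⟩
  · intro h0
    obtain ⟨F, hm, hd, hc, -⟩ := hQ UpperHalfPlane.I
    have hz : ∀ x : ℂ, F.eval x = 0 := by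
      intro x
      rw [← hev x UpperHalfPlane.I F hd hc, h0, map_zero]
    have : F = 0 := Polynomial.funext fun x => by rw [hz x, Polynomial.eval_zero]
    exact hm.ne_zero this
  · intro x y
    constructor
    · intro h0
      obtain ⟨τ, rfl⟩ := hS y
      obtain ⟨F, hm, hd, hc, hF⟩ := hQ τ
      rw [hev x τ F hd hc, hF] at h0
      obtain ⟨w, a, b, c, d, h1, h2, h3⟩ := h0
      exact ⟨τ, w, a, b, c, d, h1, h2, h3, rfl⟩
    · rintro ⟨τ, w, a, b, c, d, h1, h2, h3, rfl⟩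
      obtain ⟨F, hm, hd, hc, hF⟩ := hQ τ
      rw [hev x τ F hd hc, hF]
      exact ⟨w, a, b, c, d, h1, h2, h3⟩

theorem main : S_PN := main_of Pool.Agent.W349.YP.SURJ.main

end Pool.Agent.W253.YP.PN
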